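import Pool.Agent.U469.EW.Stm

/-!
Project EW (helper469), package SYMANT: antisymmetry of the interactions, summability, and the flux
as an antisymmetrized sum.
-/

set_option autoImplicit false

open MeasureTheory Set Filter Topology
open scoped ENNReal

namespace Pool.Agent.U312.EW.SYMANT

open Pool.Agent.U469.EW

lemma dt_sub (v : Fin 3 → ℂ) (j k : Wv) : dt v (j - k) = dt v j - dt v k := by
  simp only [dt, Pi.sub_apply, Int.cast_sub, mul_sub, Finset.sum_sub_distrib]

lemma X_symm (a : Fld) (ha : Good a) (j k : Wv) : X a j (j - k) = - X a j k := by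
  have h1 : dt (a j) (j - k) = - dt (a j) k := by rw [dt_sub, ha.div j, zero_sub]
  have h2 : ∀ i, a (j - k - j) i * (starRingEnd ℂ) (a (j - k) i)
      = a (k - j) i * (starRingEnd ℂ) (a k i) := by
    intro i
    have e1 : j - k - j = -k := by abel
    have e2 : j - k = -(k - j) := by abel
    rw [e1, e2, ha.real k i, ha.real (k - j) i, Complex.conj_conj]
    ring
  unfold X
  rw [h1, Finset.sum_congr rfl (fun i _ => h2 i)]
  ring

lemma sq_nonneg' (a : Fld) (k : Wv) : 0 ≤ sq a k := Finset.sum_nonneg fun i _ => by positivity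

lemma dt_bound (a : Fld) (j k : Wv) : ‖dt (a j) k‖ ≤ √(nsq k) * √(sq a j) := by
  unfold dt
  refine (norm_sum_le _ _).trans ?_
  have h1 : ∀ i, ‖a j i * (k i : ℂ)‖ = |(k i : ℝ)| * ‖a j i‖ := by
    intro i
    rw [norm_mul, mul_comm]
    congr 1
    rw [Complex.norm_intCast]
  rw [Finset.sum_congr rfl (fun i _ => h1 i)]
  refine (Real.sum_mul_le_sqrt_mul_sqrt _ _ _).trans ?_
  apply le_of_eq
  unfold nsq Pool.Agent.U469.EW.sq
  simp only [sq_abs]

lemma ip_bound (a : Fld) (j k : Wv) :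
    ‖∑ i, a j i * (starRingEnd ℂ) (a k i)‖ ≤ √(sq a j) * √(sq a k) := by
  refine (norm_sum_le _ _).trans ?_
  have h1 : ∀ i, ‖a j i * (starRingEnd ℂ) (a k i)‖ = ‖a j i‖ * ‖a k i‖ := by
    intro i
    rw [norm_mul, RCLike.norm_conj]
  rw [Finset.sum_congr rfl (fun i _ => h1 i)]
  exact Real.sum_mul_le_sqrt_mul_sqrt _ _ _

lemma comp_bound (a : Fld) (k : Wv) (i : Fin 3) : ‖a k i‖ ≤ √(sq a k) := by
  apply Real.le_sqrt_of_sq_le
  unfold Pool.Agent.U469.EW.sq
  exact Finset.single_le_sum (f := fun i => ‖a k i‖ ^ 2) (fun i _ => by positivity)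
    (Finset.mem_univ i)

lemma sum_conv (a : Fld) (ha : Good a) (k : Wv) :
    Summable fun j => √(sq a j) * √(sq a (k - j)) := by
  have h1 : Summable fun j => sq a (k - j) :=
    ha.s0.comp_injective (i := fun j => k - j) sub_right_injective
  have h2 : Summable fun j => (sq a j + sq a (k - j)) := ha.s0.add h1
  refine Summable.of_nonneg_of_le (fun j => by positivity) (fun j => ?_) h2
  have e1 := Real.sq_sqrt (sq_nonneg' a j)
  have e2 := Real.sq_sqrt (sq_nonneg' a (k - j))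
  nlinarith [sq_nonneg (√(sq a j) - √(sq a (k - j))), sq_nonneg' a j, sq_nonneg' a (k - j),
    Real.sqrt_nonneg (sq a j), Real.sqrt_nonneg (sq a (k - j))]

lemma X_bound1 (a : Fld) (j k : Wv) :
    ‖X a j k‖ ≤ √(nsq k) * √(sq a j) * (√(sq a (k - j)) * √(sq a k)) := by
  unfold X
  rw [norm_mul]
  exact mul_le_mul (dt_bound a j k) (ip_bound a (k - j) k) (norm_nonneg _) (by positivity)

lemma X_bound2 (a : Fld) (ha : Good a) (j k : Wv) :
    ‖X a j k‖ ≤ √(nsq (k - j)) * √(sq a j) * (√(sq a (k - j)) * √(sq a k)) := by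
  have h : dt (a j) k = dt (a j) (k - j) := by rw [dt_sub, ha.div j, sub_zero]
  unfold X
  rw [norm_mul, h]
  exact mul_le_mul (dt_bound a j (k - j)) (ip_bound a (k - j) k) (norm_nonneg _) (by positivity)

lemma X_summable (a : Fld) (ha : Good a) (k : Wv) : Summable fun j => ‖X a j k‖ := by
  have h := (sum_conv a ha k).mul_left (√(nsq k) * √(sq a k))
  refine Summable.of_nonneg_of_le (fun j => norm_nonneg _) (fun j => ?_) h
  refine (X_bound1 a j k).trans (le_of_eq ?_)
  ring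

lemma conv_eq (a : Fld) (ha : Good a) (k : Wv) :
    ∑ i, conv a k i * (starRingEnd ℂ) (a k i) = ∑' j, X a j k := by
  have hs : ∀ i, Summable fun j => dt (a j) k * a (k - j) i := by
    intro i
    have h := (sum_conv a ha k).mul_left (√(nsq k))
    refine Summable.of_norm_bounded h (fun j => ?_)
    rw [norm_mul]
    calc ‖dt (a j) k‖ * ‖a (k - j) i‖ ≤ (√(nsq k) * √(sq a j)) * √(sq a (k - j)) :=
          mul_le_mul (dt_bound a j k) (comp_bound a (k - j) i) (norm_nonneg _) (by positivity)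
      _ = √(nsq k) * (√(sq a j) * √(sq a (k - j))) := by ring
  have h1 : ∀ i, conv a k i * (starRingEnd ℂ) (a k i)
      = ∑' j, dt (a j) k * a (k - j) i * (starRingEnd ℂ) (a k i) := by
    intro i
    unfold conv
    rw [tsum_mul_right]
  rw [Finset.sum_congr rfl (fun i _ => h1 i),
    ← Summable.tsum_finsetSum (fun i _ => (hs i).mul_right _)]
  refine tsum_congr fun j => ?_
  unfold X
  rw [Finset.mul_sum]
  refine Finset.sum_congr rfl fun i _ => ?_
  ring

theorem t_SYM : S_SYM := fun a ha =>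
  ⟨X_symm a ha, X_summable a ha, conv_eq a ha, X_bound1 a, X_bound2 a ha⟩

/-- the involution `(j, k) ↦ (j, j - k)` -/
def tau : Wv × Wv ≃ Wv × Wv where
  toFun z := (z.1, z.1 - z.2)
  invFun z := (z.1, z.1 - z.2)
  left_inv z := by ext <;> simp
  right_inv z := by ext <;> simp

theorem t_ANT (h : S_SYM) : S_ANT := by
  intro a ha F φ _ hev hF
  obtain ⟨hsym, hsum, hconv, _, _⟩ := h a ha
  set Z1 : Wv × Wv → ℂ := fun z => (φ z.2 : ℂ) * X a z.1 z.2 with hZ1
  have hk : ∀ k, Summable fun j => ‖(φ k : ℂ) * X a j k‖ := by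
    intro k
    simp only [norm_mul]
    exact (hsum k).mul_left _
  -- summability over the product, in the other order
  have hsw : Summable fun z : Wv × Wv => ‖(φ z.1 : ℂ) * X a z.2 z.1‖ := by
    rw [summable_prod_of_nonneg (fun z => norm_nonneg _)]
    refine ⟨fun k => hk k, ?_⟩
    refine summable_of_ne_finset_zero (s := F) (fun k hkF => ?_)
    simp [hF k hkF]
  have hZ1n : Summable fun z => ‖Z1 z‖ := (Equiv.prodComm Wv Wv).summable_iff.mpr hsw
  have hZ1s : Summable Z1 := hZ1n.of_norm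
  have hτ : ∀ z : Wv × Wv, Z1 (tau z) = - ((φ (z.2 - z.1) : ℂ) * X a z.1 z.2) := by
    intro z
    have e : z.1 - z.2 = -(z.2 - z.1) := by abel
    simp only [hZ1, tau, Equiv.coe_fn_mk]
    rw [hsym, e, hev]
    ring
  have hZ2 : ∀ z : Wv × Wv, (φ (z.2 - z.1) : ℂ) * X a z.1 z.2 = - Z1 (tau z) := by
    intro z
    rw [hτ z, neg_neg]
  have hZ2n : Summable fun z => ‖Z1 (tau z)‖ := tau.summable_iff.mpr hZ1n
  have hd : ∀ z : Wv × Wv, ((φ z.2 - φ (z.2 - z.1) : ℝ) : ℂ) * X a z.1 z.2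
      = Z1 z + Z1 (tau z) := by
    intro z
    have := hZ2 z
    have e : Z1 z = (φ z.2 : ℂ) * X a z.1 z.2 := rfl
    rw [e, hτ z]
    push_cast
    ring
  refine ⟨?_, ?_⟩
  · simp_rw [hd]
    exact Summable.of_nonneg_of_le (fun z => norm_nonneg _) (fun z => norm_add_le _ _)
      (hZ1n.add hZ2n)
  · have e1 : ∑' z : Wv × Wv, ((φ z.2 - φ (z.2 - z.1) : ℝ) : ℂ) * X a z.1 z.2
        = 2 * ∑' z, Z1 z := by
      simp_rw [hd]
      rw [hZ1s.tsum_add hZ2n.of_norm, tau.tsum_eq]
      ring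
    have e2 : ∑' z, Z1 z = ∑ k ∈ F, (φ k : ℂ) * ∑' j, X a j k := by
      have e3 : ∑' z, Z1 z = ∑' z : Wv × Wv, (φ z.1 : ℂ) * X a z.2 z.1 :=
        ((Equiv.prodComm Wv Wv).tsum_eq Z1).symm
      rw [e3, hsw.of_norm.tsum_prod, tsum_eq_sum (s := F)]
      · refine Finset.sum_congr rfl fun k _ => ?_
        exact tsum_mul_left (a := (φ k : ℂ)) (f := fun j => X a j k)
      · intro k hkF
        simp [hF k hkF]
    have e4 : ∑ k ∈ F, (φ k : ℂ) * ∑ i, conv a k i * (starRingEnd ℂ) (a k i) = ∑' z, Z1 z := by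
      rw [e2]
      exact Finset.sum_congr rfl fun k _ => by rw [hconv k]
    unfold flux
    rw [e4, e1]
    simp

end Pool.Agent.U312.EW.SYMANT
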